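import Mathlib

/-!
Definitions used in the statement: induced minors, coverable sets, quotient graphs.
-/

namespace Pool.Agent.P.MP_cd2194_co

/-- `H` is an induced minor of `G`: there are pairwise disjoint connected branch sets `B u`, and
two distinct vertices of `H` are adjacent exactly when an edge of `G` joins their branch sets. -/
def IsInducedMinor {W V : Type} (H : SimpleGraph W) (G : SimpleGraph V) : Prop :=
  ∃ B : W → Set V, (∀ u, (G.induce (B u)).Connected) ∧ (∀ u v, u ≠ v → Disjoint (B u) (B v)) ∧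
    ∀ u v, u ≠ v → (H.Adj u v ↔ ∃ a ∈ B u, ∃ b ∈ B v, G.Adj a b)

/-- `S` is `(k, r)`-coverable: all vertices of `S` are within distance `r` in `G` of some set of
at most `k` vertices. -/
def Coverable {V : Type} (G : SimpleGraph V) (k r : ℕ) (S : Finset V) : Prop :=
  ∃ X : Finset V, X.card ≤ k ∧ ∀ v ∈ S, ∃ x ∈ X, G.edist x v ≤ r

/-- The quotient of `G` by a partition `P` of its vertex set: two distinct clusters are adjacent
when an edge of `G` has one end in each. -/
def quotientGraph {V : Type} [Fintype V] [DecidableEq V] (G : SimpleGraph V)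
    (P : Finpartition (Finset.univ : Finset V)) : SimpleGraph P.parts where
  Adj X Y := X ≠ Y ∧ ∃ a ∈ X.1, ∃ b ∈ Y.1, G.Adj a b
  symm := ⟨fun _ _ ⟨h, a, ha, b, hb, hab⟩ => ⟨h.symm, b, hb, a, ha, hab.symm⟩⟩
  loopless := ⟨fun _ h => h.1 rfl⟩

end Pool.Agent.P.MP_cd2194_co
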