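import Mathlib
import Pool.Agent.P.MP_cd2194_co.Defs

/-!
Crossing graphs of laminar segments exclude the 7-cycle as an induced minor.
-/

namespace Pool.Agent.P.MP_cd2194_co

variable {V : Type} {G : SimpleGraph V}

/-- A walk of length `n` from `p` to `q` inside `W`. -/
def IsWalk (G : SimpleGraph V) (W : Set V) (p q : V) (n : ℕ) (w : ℕ → V) : Prop :=
  w 0 = p ∧ w n = q ∧ (∀ i < n, G.Adj (w i) (w (i + 1))) ∧ ∀ i ≤ n, w i ∈ W

/-- Reachability inside `W`. -/
def Rch (G : SimpleGraph V) (W : Set V) : V → V → Prop :=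
  Relation.ReflTransGen fun a b => G.Adj a b ∧ b ∈ W

theorem Rch.walk {W : Set V} {p q : V} (hp : p ∈ W) (h : Rch G W p q) :
    ∃ n w, IsWalk G W p q n w := by
  induction h with
  | refl => exact ⟨0, fun _ => p, rfl, rfl, fun i hi => absurd hi (by omega), fun _ _ => hp⟩
  | @tail b c _ hbc ih =>
    obtain ⟨n, w, h0, hn, ha, hw⟩ := ih
    refine ⟨n + 1, fun i => if i ≤ n then w i else c, by simp [h0], by simp, fun i hi => ?_,
      fun i _ => ?_⟩
    · by_cases h : i < n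
      · simp only [if_pos h.le, if_pos (show i + 1 ≤ n by omega)]
        exact ha i h
      · obtain rfl : i = n := by omega
        simp only [le_refl, if_true, if_neg (show ¬ i + 1 ≤ i by omega), hn]
        exact hbc.1
    · by_cases h : i ≤ n
      · simp only [if_pos h]; exact hw i h
      · simp only [if_neg h]; exact hbc.2

theorem rch_of_conn {S W : Set V} (hS : (G.induce S).Connected) (hSW : S ⊆ W) {a b : V}
    (ha : a ∈ S) (hb : b ∈ S) : Rch G W a b := by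
  have h := (SimpleGraph.reachable_iff_reflTransGen _ _).1 (hS.preconnected ⟨a, ha⟩ ⟨b, hb⟩)
  have key : ∀ x y : S, Relation.ReflTransGen (G.induce S).Adj x y → Rch G W x.1 y.1 := by
    intro x y hxy
    induction hxy with
    | refl => exact Relation.ReflTransGen.refl
    | @tail b c _ hbc ih => exact Relation.ReflTransGen.tail ih ⟨hbc, hSW c.2⟩
  exact key _ _ h

theorem IsWalk.cut {W : Set V} {p q : V} {n k : ℕ} {w : ℕ → V} (h : IsWalk G W p q (n + 2) w)
    (hk : k < n) (ha : G.Adj (w k) (w (k + 3))) :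
    IsWalk G W p q n fun i => if i ≤ k then w i else w (i + 2) := by
  obtain ⟨h0, hn, hadj, hw⟩ := h
  refine ⟨by simp [h0], by simp [if_neg (show ¬ n ≤ k by omega), hn], fun i hi => ?_,
    fun i hi => ?_⟩
  · rcases lt_trichotomy i k with h | rfl | h
    · simp only [if_pos h.le, if_pos (show i + 1 ≤ k by omega)]
      exact hadj i (by omega)
    · simp only [le_refl, if_true, if_neg (show ¬ i + 1 ≤ i by omega)]
      exact ha
    · simp only [if_neg (show ¬ i ≤ k by omega), if_neg (show ¬ i + 1 ≤ k by omega)]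
      exact hadj (i + 2) (by omega)
  · by_cases h : i ≤ k
    · simp only [if_pos h]; exact hw i (by omega)
    · simp only [if_neg h]; exact hw (i + 2) (by omega)

theorem no_cycle [Finite V] (s : V → Bool) (r : V → ℕ) (hs : ∀ a b, G.Adj a b → s a ≠ s b)
    (hcut : ∀ a b c d e, G.Adj a b → G.Adj b c → G.Adj c d → G.Adj d e → r c ≤ r a → r c ≤ r e →
      G.Adj a d ∨ G.Adj b e) : ¬ IsInducedMinor (SimpleGraph.cycleGraph 7) G := by
  rintro ⟨B, hconn, hdis, hadj⟩
  have hedge : ∀ i : Fin 7, ∃ a ∈ B i, ∃ b ∈ B (i + 1), G.Adj a b := fun i =>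
    (hadj i (i + 1) (by revert i; decide)).1 (by revert i; decide)
  have hone : ∀ a b, G.Adj a b → s a = false ∨ s b = false := fun a b h =>
    (by decide : ∀ x y : Bool, x ≠ y → x = false ∨ y = false) _ _ (hs a b h)
  have hmax : ∀ i : Fin 7, ∃ a, (a ∈ B i ∪ B (i + 1) ∧ s a = false) ∧
      ∀ b, b ∈ B i ∪ B (i + 1) ∧ s b = false → r b ≤ r a := fun i => by
    refine Set.exists_max_image {a | a ∈ B i ∪ B (i + 1) ∧ s a = false} r (Set.toFinite _) ?_
    obtain ⟨a, ha, b, hb, hab⟩ := hedge i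
    rcases hone a b hab with h | h
    · exact ⟨a, Or.inl ha, h⟩
    · exact ⟨b, Or.inr hb, h⟩
  choose f hf hfmax using hmax
  obtain ⟨o, ho⟩ := Finite.exists_min fun i => r (f i)
  obtain ⟨L, hL⟩ : ∃ L, L = B (o + 5) ∪ B (o + 5 + 1) ∪ B o := ⟨_, rfl⟩
  obtain ⟨R, hR⟩ : ∃ R, R = B (o + 1) ∪ (B (o + 2) ∪ B (o + 2 + 1)) := ⟨_, rfl⟩
  have hne : ∀ {i j : Fin 7} {a}, i ≠ j → a ∈ B i → a ∈ B j → False := fun h ha hb =>
    Set.disjoint_left.1 (hdis _ _ h) ha hb
  have hna : ∀ {i j : Fin 7} {a b}, (i ≠ j ∧ ¬ (SimpleGraph.cycleGraph 7).Adj i j) → a ∈ B i →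
      b ∈ B j → G.Adj a b → False := fun h ha hb hab =>
    h.2 ((hadj _ _ h.1).2 ⟨_, ha, _, hb, hab⟩)
  have hcross : ∀ a ∈ L, ∀ b ∈ R, G.Adj a b → a ∈ B o ∧ b ∈ B (o + 1) := by
    rw [hL, hR]
    rintro a ((ha | ha) | ha) b (hb | hb | hb) hab
    all_goals first
      | exact ⟨ha, hb⟩
      | exact (hna (by clear * -; revert o; decide) ha hb hab).elim
  have step : ∀ i : Fin 7, B i ⊆ L ∪ R → B (i + 1) ⊆ L ∪ R → ∀ a ∈ B i, ∀ b ∈ B (i + 1),
      Rch G (L ∪ R) a b := fun i h1 h2 a ha b hb => by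
    obtain ⟨c, hc, d, hd, hcd⟩ := hedge i
    exact ((rch_of_conn (hconn i) h1 ha hc).tail ⟨hcd, h2 hd⟩).trans
      (rch_of_conn (hconn _) h2 hd hb)
  have s5 : B (o + 5) ⊆ L ∪ R := fun a h => by rw [hL]; exact Or.inl (Or.inl (Or.inl h))
  have s6 : B (o + 5 + 1) ⊆ L ∪ R := fun a h => by rw [hL]; exact Or.inl (Or.inl (Or.inr h))
  have s0 : B o ⊆ L ∪ R := fun a h => by rw [hL]; exact Or.inl (Or.inr h)
  have s1 : B (o + 1) ⊆ L ∪ R := fun a h => by rw [hR]; exact Or.inr (Or.inl h)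
  have s2 : B (o + 2) ⊆ L ∪ R := fun a h => by rw [hR]; exact Or.inr (Or.inr (Or.inl h))
  have s3 : B (o + 2 + 1) ⊆ L ∪ R := fun a h => by rw [hR]; exact Or.inr (Or.inr (Or.inr h))
  have e1 : o + 5 + 1 + 1 = o := by clear * -; revert o; decide
  have e2 : o + 1 + 1 = o + 2 := by clear * -; revert o; decide
  obtain ⟨a0, ha0, a1, ha1, -⟩ := hedge o
  obtain ⟨a6, ha6, -⟩ := hedge (o + 5 + 1)
  obtain ⟨a2, ha2, -⟩ := hedge (o + 2)
  have hrch : Rch G (L ∪ R) (f (o + 5)) (f (o + 2)) := by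
    have t1 : Rch G (L ∪ R) (f (o + 5)) a6 := (hf (o + 5)).1.elim
      (fun h => step _ s5 s6 _ h _ ha6) fun h => rch_of_conn (hconn _) s6 h ha6
    have t2 : Rch G (L ∪ R) a6 a0 := step _ s6 (by rwa [e1]) _ ha6 _ (by rwa [e1])
    have t3 : Rch G (L ∪ R) a0 a1 := step _ s0 s1 _ ha0 _ ha1
    have t4 : Rch G (L ∪ R) a1 a2 := step _ s1 (by rwa [e2]) _ ha1 _ (by rwa [e2])
    have t5 : Rch G (L ∪ R) a2 (f (o + 2)) := (hf (o + 2)).1.elim
      (fun h => rch_of_conn (hconn _) s2 ha2 h) fun h => step _ s2 s3 _ ha2 _ h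
    exact (((t1.trans t2).trans t3).trans t4).trans t5
  have hpL : f (o + 5) ∈ L := by rw [hL]; exact Or.inl (hf _).1
  have hqR : f (o + 2) ∈ R := by rw [hR]; exact Or.inr (hf _).1
  have hp : f (o + 5) ∉ B o ∪ B (o + 1) := by
    rintro (h | h) <;> rcases (hf (o + 5)).1 with h' | h' <;>
      exact hne (by clear * -; revert o; decide) h h'
  have hq : f (o + 2) ∉ B o ∪ B (o + 1) := by
    rintro (h | h) <;> rcases (hf (o + 2)).1 with h' | h' <;>
      exact hne (by clear * -; revert o; decide) h h'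
  have hqL : f (o + 2) ∉ L := by
    rw [hL]
    rintro ((h | h) | h) <;> rcases (hf (o + 2)).1 with h' | h' <;>
      exact hne (by clear * -; revert o; decide) h h'
  obtain ⟨n, w, hw⟩ := hrch.walk (Set.mem_union_left _ hpL)
  induction n using Nat.strong_induction_on generalizing w with
  | _ n ih =>
  obtain ⟨h0, hn, ha, hW⟩ := id hw
  obtain ⟨i, hi, hiL, hiR⟩ : ∃ i < n, w i ∈ L ∧ w (i + 1) ∉ L := by
    by_contra hc
    push Not at hc
    have : ∀ i ≤ n, w i ∈ L := fun i hi => by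
      induction i with
      | zero => rwa [h0]
      | succ k ihk => exact hc k (by omega) (ihk (by omega))
    exact hqL (hn ▸ this n le_rfl)
  obtain ⟨c1, c2⟩ := hcross _ hiL _ ((hW (i + 1) hi).resolve_left hiR) (ha i hi)
  obtain ⟨k, hk, hks, hkB⟩ : ∃ k ≤ n, s (w k) = false ∧ w k ∈ B o ∪ B (o + 1) :=
    (hone _ _ (ha i hi)).elim (fun h => ⟨i, hi.le, h, Or.inl c1⟩) fun h => ⟨i + 1, hi, h, Or.inr c2⟩
  have hk0 : k ≠ 0 := by rintro rfl; exact hp (h0 ▸ hkB)
  have hkn : k ≠ n := by rintro rfl; exact hq (hn ▸ hkB)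
  obtain ⟨m, ⟨hm0, hmn, hms⟩, hmin⟩ := Set.exists_min_image
    {m | 0 < m ∧ m < n ∧ s (w m) = false} (fun m => r (w m))
    ((Set.finite_lt_nat n).subset fun m hm => hm.2.1) ⟨k, by omega, by omega, hks⟩
  have hmo : r (w m) ≤ r (f o) := (hmin k ⟨by omega, by omega, hks⟩).trans (hfmax o _ ⟨hkB, hks⟩)
  have hall : ∀ l ≤ n, s (w l) = false → r (w m) ≤ r (w l) := fun l hl hls => by
    rcases Nat.eq_zero_or_pos l with rfl | h1
    · rw [h0]; exact hmo.trans (ho _)
    rcases hl.eq_or_lt with rfl | h2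
    · rw [hn]; exact hmo.trans (ho _)
    exact hmin l ⟨h1, h2, hls⟩
  have hm1 : m ≠ 1 := by
    rintro rfl
    exact hs _ _ (ha 0 (by omega)) (by rw [h0, (hf _).2, hms])
  have hm2 : m + 1 ≠ n := by
    rintro rfl
    exact hs _ _ (ha m (by omega)) (by rw [hn, (hf _).2, hms])
  obtain ⟨m, rfl⟩ : ∃ l, m = l + 2 := ⟨m - 2, by omega⟩
  obtain ⟨n, rfl⟩ : ∃ l, n = l + 2 := ⟨n - 2, by omega⟩
  have b1 := ha m (by omega)
  have b2 := ha (m + 1) (by omega)
  have b3 := ha (m + 2) (by omega)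
  have b4 := ha (m + 3) (by omega)
  have two : ∀ x y z : Bool, x ≠ y → y ≠ z → x = z := by decide
  have q1 : s (w m) = false := (two _ _ _ (hs _ _ b1) (hs _ _ b2)).trans hms
  have q2 : s (w (m + 4)) = false := (two _ _ _ (hs _ _ b3) (hs _ _ b4)).symm.trans hms
  rcases hcut _ _ _ _ _ b1 b2 b3 b4 (hall m (by omega) q1) (hall (m + 4) (by omega) q2) with h | h
  · exact ih n (by omega) _ (hw.cut (by omega) h)
  · exact ih n (by omega) _ (hw.cut (k := m + 1) (by omega) h)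

end Pool.Agent.P.MP_cd2194_co
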