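import Mathlib
import Pool.Agent.P.MP_cd2194_co.Hole

/-!
The crossing graph of `M`-adic horizontal and vertical segments.
-/

namespace Pool.Agent.P.MP_cd2194_co

open Finset

/-- A segment of direction `s` on the line `z`, covering the `t` with `t / M ^ j = u`. -/
@[ext] structure Vx (M K : ℕ) where
  s : Bool
  j : ℕ
  u : ℕ
  z : ℕ
  hj : j ≤ K
  hu : u < M ^ (K - j)
  hz : z < M ^ K
  h0 : j = 0 → u % M = (z + 1) % M

/-- Two segments are adjacent if they cross. -/
def cross (M K : ℕ) : SimpleGraph (Vx M K) where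
  Adj v w := v.s ≠ w.s ∧ w.z / M ^ v.j = v.u ∧ v.z / M ^ w.j = w.u
  symm := ⟨fun _ _ h => ⟨h.1.symm, h.2.2, h.2.1⟩⟩
  loopless := ⟨fun _ h => h.1 rfl⟩

variable {M K : ℕ}

theorem div_pow_mono {a b i j : ℕ} (hij : i ≤ j) (h : a / M ^ i = b / M ^ i) :
    a / M ^ j = b / M ^ j := by
  obtain ⟨k, rfl⟩ := Nat.exists_eq_add_of_le hij
  rw [pow_add, ← Nat.div_div_eq_div_mul, ← Nat.div_div_eq_div_mul, h]

/-- The codes of the segments. -/
def codes (M K : ℕ) : Finset (Bool × ℕ × Σ _ : ℕ, ℕ) :=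
  univ ×ˢ range (M ^ K) ×ˢ (range (K + 1)).sigma fun j => range (M ^ (K - max j 1))

theorem code_mem (hK : 1 ≤ K) (v : Vx M K) :
    (v.s, v.z, ⟨v.j, if v.j = 0 then v.u / M else v.u⟩) ∈ codes M K := by
  simp only [codes, mem_product, mem_univ, mem_range, mem_sigma, true_and]
  refine ⟨v.hz, Nat.lt_succ_of_le v.hj, ?_⟩
  have := v.hu
  split_ifs with h
  · rw [h] at this ⊢
    obtain ⟨k, rfl⟩ := Nat.exists_eq_add_of_le' hK
    refine Nat.div_lt_of_lt_mul ?_
    simpa [pow_succ, mul_comm] using this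
  · rwa [max_eq_left (by omega)]

theorem code_inj : Function.Injective fun v : Vx M K =>
    ((v.s, v.z, ⟨v.j, if v.j = 0 then v.u / M else v.u⟩) : Bool × ℕ × Σ _ : ℕ, ℕ) := by
  intro v w h
  simp only [Prod.mk.injEq, Sigma.mk.injEq, heq_eq_eq] at h
  obtain ⟨h1, h2, h3, h4⟩ := h
  refine Vx.ext h1 h3 ?_ h2
  rw [← h3] at h4
  split_ifs at h4 with h
  · rw [← Nat.div_add_mod v.u M, ← Nat.div_add_mod w.u M, h4, v.h0 h, w.h0 (h3 ▸ h), h2]
  · exact h4

instance : Finite (Vx M K) :=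
  Finite.of_injective (fun v : Vx M K => ((v.s, ⟨v.j, Nat.lt_succ_of_le v.hj⟩,
    ⟨v.z, v.hz⟩, ⟨⟨v.j, Nat.lt_succ_of_le v.hj⟩, ⟨v.u, v.hu⟩⟩) :
      Bool × Fin (K + 1) × Fin (M ^ K) × Σ j : Fin (K + 1), Fin (M ^ (K - j)))) fun v w h => by
    have h1 := congrArg (fun x => x.1) h
    have h2 := congrArg (fun x => x.2.1.1) h
    have h3 := congrArg (fun x => x.2.2.1.1) h
    have h4 := congrArg (fun x => x.2.2.2.2.1) h
    exact Vx.ext h1 h2 h4 h3

noncomputable instance : Fintype (Vx M K) := Fintype.ofFinite _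

theorem card_Vx (k : ℕ) (hM : 2 ≤ M) :
    Fintype.card (Vx M (k + 1)) ≤ 6 * (M ^ (k + 1) * M ^ k) := by
  have h1 : Fintype.card (Vx M (k + 1)) ≤ (codes M (k + 1)).card := by
    rw [← card_univ]
    exact card_le_card_of_injOn _ (fun v _ => code_mem (by omega) v) code_inj.injOn
  have h2 : ∑ j ∈ range (k + 1 + 1), M ^ (k + 1 - max j 1) ≤ 3 * M ^ k := by
    rw [sum_range_succ']
    have e : ∑ j ∈ range (k + 1), M ^ (k + 1 - max (j + 1) 1) = ∑ j ∈ range (k + 1), M ^ j := by
      rw [← sum_range_reflect]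
      refine sum_congr rfl fun j hj => ?_
      rw [mem_range] at hj
      congr 1
      omega
    have := Nat.geomSum_lt hM (s := range k) (n := k) fun _ h => mem_range.1 h
    rw [e, sum_range_succ]
    simp only [zero_le, sup_of_le_right, add_tsub_cancel_right]
    omega
  simp only [codes, card_product, card_univ, Fintype.card_bool, card_range, card_sigma] at h1
  calc _ ≤ _ := h1
    _ ≤ 2 * (M ^ (k + 1) * (3 * M ^ k)) := by gcongr
    _ = _ := by ring

theorem cross_free : ¬ IsInducedMinor (SimpleGraph.cycleGraph 7) (cross M K) := by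
  refine no_cycle (fun v => v.s) (fun v => v.j) (fun a b h => h.1) ?_
  rintro a b c d e ⟨s1, x1, y1⟩ ⟨s2, y2, x2⟩ ⟨s3, x3, y3⟩ ⟨s4, y4, x4⟩ h1 h2
  have two : ∀ x y z w : Bool, x ≠ y → y ≠ z → z ≠ w → x ≠ w := by decide
  rcases le_total b.j d.j with h | h
  · refine Or.inl ⟨two _ _ _ _ s1 s2 s3, ?_, ?_⟩
    · rw [← x1]; exact div_pow_mono h1 (x3.trans x2.symm)
    · rw [← y3]; exact div_pow_mono h (y1.trans y2.symm)
  · refine Or.inr ⟨two _ _ _ _ s2 s3 s4, ?_, ?_⟩
    · rw [← y2]; exact div_pow_mono h (y4.trans y3.symm)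
    · rw [← x4]; exact div_pow_mono h2 (x2.trans x3.symm)

/-- The long segment of direction `s` and scale `j + 1` through the cell `(t, z)`. -/
def long (s : Bool) (j : Fin K) (t z : Fin (M ^ K)) : Vx M K where
  s := s
  j := j + 1
  u := t / M ^ (j.1 + 1)
  z := z
  hj := j.2
  hu := Nat.div_lt_of_lt_mul (by
    rw [← pow_add, Nat.add_sub_cancel' (show j.1 + 1 ≤ K from j.2)]; exact t.2)
  hz := z.2
  h0 := fun h => absurd h (by omega)

theorem small_div (hM : 0 < M) (t z : ℕ) : (M * (t / M) + (z + (M - 1)) % M) / M = t / M := by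
  rw [Nat.mul_add_div hM, Nat.div_eq_of_lt (Nat.mod_lt _ hM), add_zero]

/-- The unit segment crossing the line `z` of direction `s` in the window of `t`. -/
def small (hM : 0 < M) (hK : 0 < K) (s : Bool) (t z : Fin (M ^ K)) : Vx M K where
  s := !s
  j := 0
  u := z
  z := M * (t / M) + (z + (M - 1)) % M
  hj := Nat.zero_le _
  hu := z.2
  hz := by
    obtain ⟨k, rfl⟩ := Nat.exists_eq_add_of_le' hK
    have h1 : t.1 / M < M ^ k := Nat.div_lt_of_lt_mul (by rw [← pow_succ']; exact t.2)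
    have h2 := small_div hM t z
    exact (Nat.div_lt_iff_lt_mul hM).1 (h2.trans_lt h1)
  h0 := fun _ => by
    rw [add_assoc, Nat.mul_add_mod, Nat.mod_add_mod, add_assoc, Nat.sub_add_cancel hM,
      Nat.add_mod_right]

theorem small_adj_long (hM : 0 < M) (hK : 0 < K) (s : Bool) (j : Fin K) (t z : Fin (M ^ K)) :
    (cross M K).Adj (small hM hK s t z) (long s j t z) := by
  refine ⟨by simp [small, long], by simp [small, long], ?_⟩
  exact div_pow_mono (i := 1) (by simp [long]) (by simpa [small] using small_div hM t z)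

theorem small_nbr (hM : 3 ≤ M) (hK : 0 < K) {s : Bool} {t z : Fin (M ^ K)} {w : Vx M K}
    (h : (cross M K).Adj (small (by omega) hK s t z) w) :
    w.s = s ∧ w.z = z ∧ t / M ^ w.j = w.u ∧ 1 ≤ w.j := by
  obtain ⟨h1, h2, h3⟩ := h
  have hz : w.z = z := by simpa [small] using h2
  have hj : 1 ≤ w.j := by
    by_contra hc
    have h0 : w.j = 0 := by omega
    have e1 := w.h0 h0
    have e2 := (small (by omega) hK s t z).h0 rfl
    rw [h0, pow_zero, Nat.div_one] at h3
    rw [h3] at e2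
    change z.1 % M = _ at e2
    rw [hz] at e1
    have e3 : z.1 ≡ z.1 + 1 + 1 [MOD M] := e2.trans (Nat.ModEq.add_right 1 e1)
    have := (Nat.modEq_iff_dvd' (by omega)).1 e3
    rw [show z.1 + 1 + 1 - z.1 = 2 by omega] at this
    exact absurd (Nat.le_of_dvd (by norm_num) this) (by omega)
  refine ⟨?_, hz, ?_, hj⟩
  · revert h1
    simp only [small]
    cases s <;> cases w.s <;> simp
  · rw [← h3]
    exact (div_pow_mono (i := 1) hj (by simpa [small] using small_div (by omega) t z)).symm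

end Pool.Agent.P.MP_cd2194_co
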