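import Mathlib
import Pool.Agent.P.MP_cd2194_co.Graph

/-!
Counting the edges of a quotient of the crossing graph.
-/

namespace Pool.Agent.P.MP_cd2194_co

open Finset

/-- The data of a connected partition with dominated clusters. -/
structure Clustering {V : Type} (G : SimpleGraph V) (C : Type) (q : ℕ) where
  cl : V → C
  D : C → Finset V
  dom : V → V
  E : Finset (C × C)
  hD : ∀ a, (D a).card ≤ q
  dom_mem : ∀ v, dom v ∈ D (cl v)
  dom_adj : ∀ v, dom v = v ∨ G.Adj (dom v) v
  conn : ∀ v, (∀ w, G.Adj v w → cl w ≠ cl v) → ∀ w, cl w = cl v → w = v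
  hE : ∀ v w, G.Adj v w → cl v ≠ cl w → (cl v, cl w) ∈ E

variable {M k q : ℕ} {C : Type} (Z : Clustering (cross M (k + 1)) C q) (hM : 3 ≤ M)

/-- The unit segment of the cell `c` is alone in its cluster. -/
def Single (s : Bool) (c : Fin (M ^ (k + 1)) × Fin (M ^ (k + 1))) : Prop :=
  ∀ w, (cross M (k + 1)).Adj (small (by omega) k.succ_pos s c.1 c.2) w →
    Z.cl w ≠ Z.cl (small (by omega) k.succ_pos s c.1 c.2)

/-- The dominator of the long segment is close to the cell. -/
def Bad (s : Bool) (x : (Fin (M ^ (k + 1)) × Fin (M ^ (k + 1))) × Fin (k + 1)) : Prop :=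
  (Z.dom (long s x.2 x.1.1 x.1.2)).z / M ^ x.2.1 = x.1.1 / M ^ x.2.1

open Classical in
include hM in
theorem card_bad (s : Bool) :
    (univ.filter (Bad Z s)).card ≤ (k + 1) * (M ^ (k + 1) * M ^ k) := by
  have hp : ∀ j, 0 < M ^ j := fun j => pow_pos (by omega) j
  have := card_le_card_of_injOn (s := univ.filter (Bad Z s))
    (t := (univ : Finset (Fin (k + 1))) ×ˢ (univ : Finset (Fin (M ^ (k + 1)))) ×ˢ range (M ^ k))
    (fun x => (x.2, x.1.2, M ^ x.2.1 * (x.1.1 / M ^ (x.2.1 + 1)) + x.1.1 % M ^ x.2.1)) ?_ ?_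
  · simpa using this
  · rintro ⟨⟨t, z⟩, j⟩ -
    simp only [coe_product, coe_univ, coe_range, Set.mem_prod, Set.mem_univ, Set.mem_Iio, true_and]
    have h1 : t.1 / M ^ (j.1 + 1) + 1 ≤ M ^ (k + 1 - (j.1 + 1)) := (long s j t z).hu
    have h2 := Nat.mod_lt t.1 (hp j)
    have h3 : M ^ j.1 * M ^ (k + 1 - (j.1 + 1)) = M ^ k := by
      rw [← pow_add]; congr 1; omega
    have h4 := Nat.mul_le_mul_left (M ^ j.1) h1
    rw [h3, mul_add, mul_one] at h4
    omega
  · rintro ⟨⟨t, z⟩, j⟩ hx ⟨⟨t', z'⟩, j'⟩ hx' h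
    simp only [Prod.mk.injEq] at h
    obtain ⟨rfl, rfl, h⟩ := h
    simp only [coe_filter, mem_univ, true_and, Set.mem_ofPred_eq, Bad] at hx hx'
    have h1 := congrArg (· / M ^ j.1) h
    have h2 := congrArg (· % M ^ j.1) h
    simp only [Nat.mul_add_div (hp j), Nat.div_eq_of_lt (Nat.mod_lt _ (hp j)), add_zero] at h1
    simp only [Nat.mul_add_mod, Nat.mod_mod] at h2
    have h3 : long s j t z = long s j t' z := Vx.ext rfl rfl h1 rfl
    rw [h3, hx'] at hx
    have : t = t' := Fin.ext (by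
      rw [← Nat.div_add_mod t.1 (M ^ j.1), ← Nat.div_add_mod t'.1 (M ^ j.1), hx, h2])
    rw [this]

theorem bad_of_dom {s : Bool} {t z : Fin (M ^ (k + 1))} {i j : Fin (k + 1)} (hij : i < j)
    (h : Z.dom (long s i t z) = Z.dom (long s j t z)) : Bad Z s ((t, z), j) := by
  rcases Z.dom_adj (long s i t z) with h1 | h1
  · rcases Z.dom_adj (long s j t z) with h2 | h2
    · have := congrArg Vx.j (h1.symm.trans (h.trans h2))
      simp only [long] at this
      omega
    · rw [← h, h1] at h2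
      exact absurd rfl h2.1
  · unfold Bad
    rw [← h]
    exact div_pow_mono (i := i.1 + 1) hij h1.2.2

open Classical in
theorem card_good (s : Bool) :
    (univ.filter fun x => Single Z hM s x.1 ∧ ¬ Bad Z s x).card ≤ M * q * Z.E.card := by
  refine card_le_mul_card_image_of_maps_to (f := fun x =>
    (Z.cl (small (by omega) k.succ_pos s x.1.1 x.1.2), Z.cl (long s x.2 x.1.1 x.1.2))) ?_ _ ?_
  · rintro ⟨⟨t, z⟩, j⟩ hx
    have h := small_adj_long (by omega) k.succ_pos s j t z
    exact Z.hE _ _ h ((mem_filter.1 hx).2.1 _ h).symm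
  · rintro ⟨a, b⟩ -
    refine (card_le_card_of_injOn (t := range M ×ˢ Z.D b)
      (fun x => (x.1.1.1 % M, Z.dom (long s x.2 x.1.1 x.1.2))) ?_ ?_).trans ?_
    · rintro ⟨⟨t, z⟩, j⟩ hx
      simp only [coe_filter, Prod.mk.injEq, Set.mem_ofPred_eq] at hx
      simp only [coe_product, coe_range, Set.mem_prod, Set.mem_Iio, mem_coe]
      exact ⟨Nat.mod_lt _ (by omega), hx.2.2 ▸ Z.dom_mem _⟩
    · rintro ⟨⟨t, z⟩, j⟩ hx ⟨⟨t', z'⟩, j'⟩ hx' h
      simp only [coe_filter, Prod.mk.injEq, Set.mem_ofPred_eq, mem_filter, mem_univ,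
        true_and] at hx hx' h
      have h1 := Z.conn _ hx.1.1 _ (hx'.2.1.trans hx.2.1.symm)
      obtain rfl : z' = z := Fin.ext (congrArg Vx.u h1)
      have h2 := congrArg (fun v : Vx M (k + 1) => v.z / M) h1
      simp only [small, small_div (show 0 < M by omega)] at h2
      obtain rfl : t = t' := Fin.ext (by
        rw [← Nat.div_add_mod t.1 M, ← Nat.div_add_mod t'.1 M, h2, h.1])
      rcases lt_trichotomy j j' with hj | rfl | hj
      · exact absurd (bad_of_dom Z hj h.2) hx'.1.2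
      · rfl
      · exact absurd (bad_of_dom Z hj h.2.symm) hx.1.2
    · rw [card_product, card_range]
      exact Nat.mul_le_mul_left _ (Z.hD b)

open Classical in
theorem card_single (s : Bool) : (k + 1) * (univ.filter (Single Z hM s)).card ≤
    M * q * Z.E.card + (k + 1) * (M ^ (k + 1) * M ^ k) := by
  have h1 := card_bad Z hM s
  have h2 := card_good Z hM s
  have h3 : (univ.filter (Single Z hM s)) ×ˢ (univ : Finset (Fin (k + 1))) ⊆
      (univ.filter fun x => Single Z hM s x.1 ∧ ¬ Bad Z s x) ∪ univ.filter (Bad Z s) := by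
    intro x hx
    simp only [mem_product, mem_filter, mem_univ, true_and, and_true, mem_union] at hx ⊢
    tauto
  have h4 := (card_le_card h3).trans (card_union_le _ _)
  rw [card_product, card_univ, Fintype.card_fin, mul_comm] at h4
  omega

theorem dom_small (s : Bool) (t z : Fin (M ^ (k + 1))) :
    (fun d : Vx M (k + 1) => if d.s = s then d.z else d.u)
      (Z.dom (small (by omega) k.succ_pos s t z)) = z := by
  rcases Z.dom_adj (small (by omega) k.succ_pos s t z) with h | h
  · rw [h]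
    simp [small]
  · obtain ⟨h1, h2, -⟩ := small_nbr hM _ h.symm
    simp only [if_pos h1, h2]

open Classical in
theorem card_both :
    (univ.filter fun c => ¬ Single Z hM false c ∧ ¬ Single Z hM true c.swap).card ≤
      q * q * (Z.E.card + Fintype.card (Vx M (k + 1))) := by
  refine (card_le_mul_card_image_of_maps_to (t := Z.E ∪ univ.image fun v => (Z.cl v, Z.cl v))
    (f := fun c => (Z.cl (small (by omega) k.succ_pos false c.1 c.2),
      Z.cl (small (by omega) k.succ_pos true c.2 c.1))) ?_ (q * q) ?_).trans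
    (Nat.mul_le_mul_left _ ((card_union_le _ _).trans (Nat.add_le_add_left card_image_le _)))
  · rintro ⟨x, y⟩ hc
    obtain ⟨h1, h2⟩ := (mem_filter.1 hc).2
    simp only [Single, not_forall, not_not, Prod.swap] at h1 h2
    obtain ⟨v, hv, ev⟩ := h1
    obtain ⟨w, hw, ew⟩ := h2
    obtain ⟨v1, v2, v3, -⟩ := small_nbr hM _ hv
    obtain ⟨w1, w2, w3, -⟩ := small_nbr hM _ hw
    have hvw : (cross M (k + 1)).Adj v w := ⟨by simp [v1, w1], by rwa [w2], by rwa [v2]⟩
    simp only [← ev, ← ew, mem_union]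
    by_cases h : Z.cl v = Z.cl w
    · exact Or.inr (mem_image.2 ⟨v, mem_univ _, by rw [← h]⟩)
    · exact Or.inl (Z.hE _ _ hvw h)
  · rintro ⟨a, b⟩ -
    refine (card_le_card_of_injOn (t := Z.D a ×ˢ Z.D b)
      (fun c => (Z.dom (small (by omega) k.succ_pos false c.1 c.2),
        Z.dom (small (by omega) k.succ_pos true c.2 c.1))) ?_ ?_).trans ?_
    · rintro ⟨x, y⟩ hc
      simp only [coe_filter, Prod.mk.injEq, Set.mem_ofPred_eq] at hc
      simp only [coe_product, Set.mem_prod, mem_coe]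
      exact ⟨hc.2.1 ▸ Z.dom_mem _, hc.2.2 ▸ Z.dom_mem _⟩
    · rintro ⟨x, y⟩ - ⟨x', y'⟩ - h
      simp only [Prod.mk.injEq] at h
      have h1 := dom_small Z hM false x y
      have h2 := dom_small Z hM true y x
      rw [h.1, dom_small Z hM] at h1
      rw [h.2, dom_small Z hM] at h2
      rw [Fin.ext h1, Fin.ext h2]
    · rw [card_product]
      exact Nat.mul_le_mul (Z.hD a) (Z.hD b)

include hM in
theorem card_total : (k + 1) * (M ^ (k + 1) * M ^ (k + 1)) ≤
    (k + 1) * (q * q * (Z.E.card + Fintype.card (Vx M (k + 1)))) +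
      2 * (M * q * Z.E.card + (k + 1) * (M ^ (k + 1) * M ^ k)) := by
  classical
  have h1 := card_both Z hM
  have h2 := card_single Z hM false
  have h3 := card_single Z hM true
  have h4 : (univ : Finset (Fin (M ^ (k + 1)) × Fin (M ^ (k + 1)))) ⊆
      (univ.filter fun c => ¬ Single Z hM false c ∧ ¬ Single Z hM true c.swap) ∪
        (univ.filter (Single Z hM false) ∪ (univ.filter (Single Z hM true)).image Prod.swap) := by
    intro c _
    simp only [mem_union, mem_filter, mem_univ, true_and, mem_image]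
    by_cases a : Single Z hM false c
    · exact Or.inr (Or.inl a)
    by_cases b : Single Z hM true c.swap
    · exact Or.inr (Or.inr ⟨_, b, Prod.swap_swap c⟩)
    exact Or.inl ⟨a, b⟩
  have h5 := (card_le_card h4).trans ((card_union_le _ _).trans (Nat.add_le_add h1
    ((card_union_le _ _).trans (Nat.add_le_add_left card_image_le _))))
  simp only [card_univ, Fintype.card_prod, Fintype.card_fin] at h5
  have h6 := Nat.mul_le_mul_left (k + 1) h5
  rw [mul_add (k + 1), mul_add (k + 1)] at h6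
  omega

theorem not_sparse (c q : ℕ) : ∃ M K, ∀ {C : Type} (Z : Clustering (cross M K) C q),
    ¬ Z.E.card ≤ 2 * (c * Fintype.card (Vx M K)) := by
  obtain ⟨k, hk⟩ : ∃ k, k = q * q * (12 * c + 6) + 24 * q * c + 2 := ⟨_, rfl⟩
  refine ⟨k + 1, k + 1, fun Z hZ => ?_⟩
  have h1 := card_total Z (by omega)
  have h2 := card_Vx (M := k + 1) k (by omega)
  obtain ⟨T, hT⟩ : ∃ T, T = (k + 1) ^ (k + 1) * (k + 1) ^ k := ⟨_, rfl⟩
  have h3 : (k + 1) ^ (k + 1) * (k + 1) ^ (k + 1) = (k + 1) * T := by rw [hT]; ring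
  have hT0 : 0 < T := by rw [hT]; positivity
  rw [h3, ← hT] at h1
  rw [← hT] at h2
  have h4 : Z.E.card ≤ 2 * (c * (6 * T)) := hZ.trans (by gcongr)
  have h5 : (k + 1) * ((k + 1) * T) ≤ (k + 1) * (q * q * (2 * (c * (6 * T)) + 6 * T)) +
      2 * ((k + 1) * q * (2 * (c * (6 * T))) + (k + 1) * T) := h1.trans (by gcongr)
  have h6 : (k + 1) * (q * q * (2 * (c * (6 * T)) + 6 * T)) +
      2 * ((k + 1) * q * (2 * (c * (6 * T))) + (k + 1) * T) = (k + 1) * (k * T) := by
    conv_rhs => rw [show k * T = (q * q * (12 * c + 6) + 24 * q * c + 2) * T by rw [← hk]]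
    ring
  rw [h6] at h5
  have h7 := Nat.le_of_mul_le_mul_right (Nat.le_of_mul_le_mul_left h5 k.succ_pos) hT0
  omega

end Pool.Agent.P.MP_cd2194_co
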